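import Pool.Agent.Results.MP_2df815_an.OmegaClosedDensity
import Pool.Agent.Helper48K9.SE.Semi
import Pool.Agent.Helper48K9.SE.Wcg

/-!
# Semi-Eberlein dual balls under all renormings: the question is independent of ZFC

`GCH` gives a positive answer (by the starting theorem `OmegaClosedDensity`), Martin's axiom for
`ℵ₁` dense sets gives a negative answer. One and the same Banach space of density at most `ℵ₁`,
which is in ZFC not a subspace of a weakly compactly generated space, has a renorming whose dual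
ball is not semi-Eberlein under CH, while under Martin's axiom all its renormings have
semi-Eberlein dual balls.
-/

set_option autoImplicit false

open Cardinal Filter Topology Set

namespace Pool.Agent.Results.MP_2df815_an.Independence

/-- A topological space is semi-Eberlein if it embeds homeomorphically into a cube `[-1,1]^Γ` so
that the points mapped into `c_0(Γ)` are dense. -/
def IsSemiEberlein (K : Type) [TopologicalSpace K] : Prop :=
  ∃ (Γ : Type) (h : K → Γ → ℝ), IsEmbedding h ∧ (∀ s γ, h s γ ∈ Set.Icc (-1 : ℝ) 1) ∧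
    Dense {s : K | Tendsto (h s) cofinite (𝓝 0)}

/-- The closed unit ball of the dual norm of the (semi)norm `N`, in the weak* topology. -/
def dualBall {X : Type} [NormedAddCommGroup X] [NormedSpace ℝ X] (N : Seminorm ℝ X) :
    Set (WeakDual ℝ X) :=
  {f | ∀ x : X, |f x| ≤ N x}

/-- `N` is an equivalent norm on `X`. -/
def IsEquivalentNorm {X : Type} [NormedAddCommGroup X] [NormedSpace ℝ X] (N : Seminorm ℝ X) :
    Prop :=
  ∃ c C : ℝ, 0 < c ∧ 0 < C ∧ ∀ x : X, c * ‖x‖ ≤ N x ∧ N x ≤ C * ‖x‖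

/-- For every equivalent norm the weak* dual ball is semi-Eberlein. -/
def AllRenormings (X : Type) [NormedAddCommGroup X] [NormedSpace ℝ X] : Prop :=
  ∀ N : Seminorm ℝ X, IsEquivalentNorm N → IsSemiEberlein (dualBall N)

/-- `X` is isomorphic to a subspace of a weakly compactly generated Banach space. -/
def IsSubspaceOfWCG (X : Type) [NormedAddCommGroup X] [NormedSpace ℝ X] : Prop :=
  ∃ (Y : Type) (_ : NormedAddCommGroup Y) (_ : NormedSpace ℝ Y), CompleteSpace Y ∧
    (∃ K : Set Y, IsCompact (toWeakSpace ℝ Y '' K) ∧ Dense (Submodule.span ℝ K : Set Y)) ∧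
      ∃ (T : X →L[ℝ] Y) (c : ℝ), 0 < c ∧ ∀ x : X, c * ‖x‖ ≤ ‖T x‖

/-- the question Q1 -/
def Question : Prop :=
  ∀ (X : Type) [NormedAddCommGroup X] [NormedSpace ℝ X] [CompleteSpace X],
    AllRenormings X → IsSubspaceOfWCG X

/-- the generalised continuum hypothesis -/
def GCH : Prop := ∀ κ : Cardinal.{0}, ℵ₀ ≤ κ → (2 : Cardinal.{0}) ^ κ = Order.succ κ

/-- the continuum hypothesis -/
def CH : Prop := (2 : Cardinal.{0}) ^ ℵ₀ = ℵ₁

/-- Martin's axiom for `ℵ₁` dense sets: for every nonempty preorder in which every set of pairwise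
incompatible elements is countable, and every family of at most `ℵ₁` dense subsets, there is a
filter meeting all of them. -/
def MA : Prop :=
  ∀ (P : Type) [Preorder P] [Nonempty P],
    (∀ A : Set P, (∀ p ∈ A, ∀ q ∈ A, p ≠ q → ¬ ∃ s, s ≤ p ∧ s ≤ q) → A.Countable) →
    ∀ (ι : Type) (D : ι → Set P), #ι ≤ ℵ₁ → (∀ i, ∀ p, ∃ q ≤ p, q ∈ D i) →
    ∃ G : Set P, G.Nonempty ∧ (∀ p ∈ G, ∀ q ∈ G, ∃ s ∈ G, s ≤ p ∧ s ≤ q) ∧
      (∀ p ∈ G, ∀ q, p ≤ q → q ∈ G) ∧ ∀ i, ∃ p ∈ G, p ∈ D i

open Pool.Agent.Helper48K9.SE in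
theorem example_space : ∃ (X : Type) (_ : NormedAddCommGroup X) (_ : NormedSpace ℝ X),
    CompleteSpace X ∧ (∃ s : Set X, Dense s ∧ #s ≤ ℵ₁) ∧ ¬ IsSubspaceOfWCG X ∧
      (CH → ¬ AllRenormings X) ∧ (MA → AllRenormings X) := by
  obtain ⟨r, hr⟩ : ∃ r : W → ℝ, Function.Injective r := by
    have h1 : #W ≤ #ℝ := by
      rw [mk_W, mk_real]
      exact aleph_one_le_continuum
    obtain ⟨f⟩ := (Cardinal.le_def _ _).1 h1
    exact ⟨f, f.injective⟩
  have hdens : ∃ s : Set (XX r), Dense s ∧ #s ≤ ℵ₁ := by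
    obtain ⟨R, hR1, hR2⟩ := Pool.Agent.Helper47.SE.dense_of_span (dense_span_ee (r := r))
    refine ⟨R, hR1, hR2.trans (max_le ?_ (aleph0_le_aleph 1))⟩
    exact mk_range_le.trans_eq mk_W
  have hnot : ¬ IsSubspaceOfWCG (XX r) := by
    rintro ⟨Y, i1, i2, -, ⟨K, hK1, hK2⟩, T, c, hc, hT⟩
    exact not_wcg hr hK1 hK2 T hc hT
  refine ⟨XX r, inferInstance, inferInstance, inferInstance, hdens, hnot, ?_, ?_⟩
  · intro hCH hall
    apply hnot
    apply OmegaClosedDensity.result (XX r) ?_ hall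
    obtain ⟨s, hs1, hs2⟩ := hdens
    have h0 : #s ∈ {c : Cardinal | ∃ s : Set (XX r), Dense s ∧ #s = c} := ⟨s, hs1, rfl⟩
    have h1 : OmegaClosedDensity.dens (XX r) ≤ ℵ₁ := (csInf_le' h0).trans hs2
    by_cases h2 : OmegaClosedDensity.dens (XX r) ≤ ℵ₀
    · exact Or.inl h2
    · right
      intro κ hκ
      have h3 : κ ≤ ℵ₀ := by
        have h4 := hκ.trans_le h1
        rw [← Order.lt_succ_iff]
        have h5 : (ℵ₁ : Cardinal.{0}) = Order.succ ℵ₀ := by
          rw [← aleph_zero, succ_aleph, zero_add]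
        exact h4.trans_eq h5
      have h6 : ℵ₁ ≤ OmegaClosedDensity.dens (XX r) := by
        have h5 : (ℵ₁ : Cardinal.{0}) = Order.succ ℵ₀ := by
          rw [← aleph_zero, succ_aleph, zero_add]
        rw [h5]
        exact Order.succ_le_of_lt (not_le.1 h2)
      calc κ ^ ℵ₀ ≤ ℵ₀ ^ ℵ₀ := power_le_power_right h3
        _ = 2 ^ ℵ₀ := power_self_eq le_rfl
        _ = ℵ₁ := hCH
        _ ≤ _ := h6
  · rintro hMA N ⟨c, C, -, hC, hN⟩
    obtain ⟨Γ, e, he1, he2, he3⟩ := semi_of_MA (fun P _ _ hP ι D hι hD => hMA P hP ι D hι hD) hr N hC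
      (fun x => (hN x).2)
    exact ⟨Γ, e, he1, fun s γ => ⟨by linarith [(he2 s γ).1], (he2 s γ).2⟩, he3⟩

/-- **The question is independent of ZFC.** The generalised continuum hypothesis implies a
positive answer, Martin's axiom for `ℵ₁` dense sets implies a negative answer; and there is (in
ZFC) one Banach space of density at most `ℵ₁`, not isomorphic to a subspace of a weakly compactly
generated space, all of whose renormings have semi-Eberlein dual balls under Martin's axiom and
one of whose renormings has not under CH. -/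
theorem result : (GCH → Question) ∧ (MA → ¬ Question) ∧
    ∃ (X : Type) (_ : NormedAddCommGroup X) (_ : NormedSpace ℝ X),
      CompleteSpace X ∧ (∃ s : Set X, Dense s ∧ #s ≤ ℵ₁) ∧ ¬ IsSubspaceOfWCG X ∧
        (CH → ¬ AllRenormings X) ∧ (MA → AllRenormings X) := by
  refine ⟨?_, ?_, example_space⟩
  · intro hG X _ _ _ hall
    apply OmegaClosedDensity.result X ?_ hall
    by_cases h2 : OmegaClosedDensity.dens X ≤ ℵ₀
    · exact Or.inl h2
    · right
      intro κ hκ
      have h3 : max κ ℵ₀ < OmegaClosedDensity.dens X := max_lt hκ (not_le.1 h2)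
      have h4 : ℵ₀ ≤ max κ ℵ₀ := le_max_right _ _
      have hne : max κ ℵ₀ ≠ 0 := (aleph0_pos.trans_le h4).ne'
      calc κ ^ ℵ₀ ≤ (max κ ℵ₀) ^ ℵ₀ := power_le_power_right (le_max_left _ _)
        _ ≤ (max κ ℵ₀) ^ (max κ ℵ₀) := power_le_power_left hne h4
        _ = 2 ^ (max κ ℵ₀) := power_self_eq h4
        _ = Order.succ (max κ ℵ₀) := hG _ h4
        _ ≤ _ := Order.succ_le_of_lt h3
  · intro hMA hQ
    obtain ⟨X, i1, i2, i3, -, h1, -, h2⟩ := example_space
    exact h1 (hQ X (h2 hMA))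

end Pool.Agent.Results.MP_2df815_an.Independence
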